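import Mathlib
import Pool.Agent.H.MP_03af15_an.A

set_option autoImplicit false

namespace Pool.Agent.H.MP_0cd67c_ag
open Polynomial Finset

noncomputable section

abbrev Fn := ℂ[X] →ₗ[ℂ] ℂ

def mu (q : ℂ[X]) (L : Fn) : Fn := L ∘ₗ LinearMap.mulLeft ℂ q

@[simp] lemma mu_apply (q p : ℂ[X]) (L : Fn) : mu q L p = L (q * p) := rfl

lemma mu_mu (q r : ℂ[X]) (L : Fn) : mu q (mu r L) = mu (r * q) L := by
  ext1; ext; simp [mu]

lemma mu_one (L : Fn) : mu 1 L = L := by ext1; ext; simp [mu]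

lemma L_C (L : Fn) (a : ℂ) (p : ℂ[X]) : L (C a * p) = a * L p := by
  rw [← smul_eq_C_mul, map_smul, smul_eq_mul]

def PP : ℕ → Fn → ℂ[X]
  | 0, L => C (L 1)
  | n + 1, L => PP n L + X * PP n (mu X L)

lemma PP_eval (n : ℕ) (L : Fn) (u : ℂ) : (PP n L).eval u = L ((1 + C u * X) ^ n) := by
  induction n generalizing L with
  | zero => simp [PP]
  | succ n ih =>
    rw [PP, eval_add, eval_mul, eval_X, ih, ih, mu_apply, ← L_C, ← map_add]
    congr 1; ring

lemma PP_deg (n : ℕ) (L : Fn) : (PP n L).natDegree ≤ n := by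
  induction n generalizing L with
  | zero => simp [PP]
  | succ n ih =>
    refine (natDegree_add_le _ _).trans (max_le ((ih _).trans (Nat.le_succ n)) ?_)
    refine natDegree_mul_le.trans ?_
    rw [natDegree_X]; have := ih (mu X L); omega

lemma PP_der (n : ℕ) (L : Fn) : derivative (PP (n + 1) L) = ((n : ℂ[X]) + 1) * PP n (mu X L) := by
  induction n generalizing L with
  | zero => simp [PP]
  | succ n ih =>
    rw [PP, derivative_add, derivative_mul, ih, ih, derivative_X, PP]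
    push_cast; ring

lemma PP_top (n : ℕ) (L : Fn) : (PP n L).coeff n = L (X ^ n) := by
  induction n generalizing L with
  | zero => simp [PP]
  | succ n ih =>
    rw [PP, coeff_add, coeff_X_mul, ih, coeff_eq_zero_of_natDegree_lt
      ((PP_deg n L).trans_lt (Nat.lt_succ_self n)), zero_add, mu_apply, pow_succ']

def S0 (N : ℕ) (L : Fn) : Prop := ∀ u : ℂ, u.im ≤ 0 → L ((1 + C u * X) ^ N) ≠ 0

def S1 (N : ℕ) (L : Fn) : Prop := L (X ^ N) ≠ 0 ∧ S0 N L

lemma S0.con {N : ℕ} {L : Fn} (h : S0 (N + 1) L) (z : ℂ) (hz : z.im ≤ 0) :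
    S0 N (mu (1 + C z * X) L) := by
  intro u hu h0
  refine MP_03af15_an.laguerre (-1) 0 (by norm_num) (PP (N+1) L) (N+1) (Nat.succ_pos _)
    (PP_deg _ _) (fun t ht => ?_) z u (by simpa using hz) (by simpa using hu) ?_
  · rw [PP_eval]; exact h t (by simpa using ht)
  · rw [PP_der, eval_mul, PP_eval, PP_eval, mu_apply]
    rw [mu_apply] at h0
    have e : (1 + C z * X) * (1 + C u * X) ^ N
        = (1 + C u * X) ^ (N + 1) + C (z - u) * (X * (1 + C u * X) ^ N) := by
      rw [map_sub]; ring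
    rw [e, map_add, L_C] at h0
    simp only [eval_add, eval_natCast, eval_one]
    push_cast
    linear_combination ((N : ℂ) + 1) * h0

lemma gl (f : ℂ[X]) (hf : ∀ u : ℂ, u.im ≤ 0 → f.eval u ≠ 0) (hd : derivative f ≠ 0) (u : ℂ)
    (hu : u.im ≤ 0) : (derivative f).eval u ≠ 0 := by
  have px := hf u hu
  have p0 : f ≠ 0 := by rintro rfl; simp at px
  have e := (IsAlgClosed.splits f).eval_derivative_div_eval_of_ne_zero px
  have cd : f.roots.card = f.natDegree := IsAlgClosed.card_roots_eq_natDegree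
  have m0 : f.roots ≠ 0 := by
    intro m0
    rw [m0] at cd
    exact hd (derivative_of_natDegree_zero (by simpa using cd.symm))
  intro h
  rw [h, zero_div] at e
  have := map_multiset_sum Complex.imAddGroupHom (f.roots.map fun z => 1 / (u - z))
  rw [Complex.coe_imAddGroupHom, ← e] at this
  refine (MP_03af15_an.msum_pos _ (fun t ht => ?_) (by simpa using m0)).ne this
  simp only [Multiset.map_map, Multiset.mem_map, Function.comp_apply] at ht
  obtain ⟨z, hz, rfl⟩ := ht
  have hz' : 0 < z.im := by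
    by_contra hh
    exact hf z (not_lt.mp hh) ((mem_roots p0).mp hz)
  have n0 : 0 < Complex.normSq (u - z) := Complex.normSq_pos.mpr (by
    intro e; rw [sub_eq_zero] at e; rw [e] at hu; linarith)
  rw [one_div, Complex.inv_im]
  refine div_pos ?_ n0
  simp only [Complex.sub_im]; linarith

lemma S0.der {N : ℕ} {L : Fn} (h : S0 (N + 1) L) : PP N (mu X L) = 0 ∨ S0 N (mu X L) := by
  by_cases h0 : PP N (mu X L) = 0
  · exact Or.inl h0
  · right
    intro u hu
    have hN : ((N : ℂ[X]) + 1) ≠ 0 := by exact_mod_cast Nat.succ_ne_zero N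
    have := gl (PP (N+1) L) (fun t ht => by rw [PP_eval]; exact h t ht)
      (by rw [PP_der]; exact mul_ne_zero hN h0) u hu
    rw [PP_der, eval_mul, PP_eval] at this
    exact right_ne_zero_of_mul this

lemma S1.der {N : ℕ} {L : Fn} (h : S1 (N + 1) L) : S1 N (mu X L) := by
  have ht : mu X L (X ^ N) ≠ 0 := by rw [mu_apply, ← pow_succ']; exact h.1
  refine ⟨ht, h.2.der.resolve_left fun h0 => ht ?_⟩
  rw [← PP_top, h0, coeff_zero]

lemma S1.der_pow {N : ℕ} (m : ℕ) {L : Fn} (h : S1 (N + m) L) : S1 N (mu (X ^ m) L) := by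
  induction m generalizing L with
  | zero => rwa [pow_zero, mu_one]
  | succ m ih =>
    have := ih (S1.der (N := N + m) h)
    rwa [mu_mu, ← pow_succ'] at this

lemma S1.con {N : ℕ} {L : Fn} (h : S1 (N + 1) L) (z : ℂ) (hz : z.im ≤ 0) :
    S1 N (mu (1 + C z * X) L) := by
  refine ⟨?_, h.2.con z hz⟩
  have := (S1.der_pow (N := 1) N (by rwa [add_comm])).2 z hz
  rw [mu_apply, pow_one] at this
  rwa [mu_apply, mul_comm]

lemma S1.smul {N : ℕ} {L : Fn} (h : S1 N L) (a : ℂ) (ha : a ≠ 0) : S1 N (mu (C a) L) := by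
  refine ⟨?_, fun u hu => ?_⟩
  · rw [mu_apply, L_C]; exact mul_ne_zero ha h.1
  · rw [mu_apply, L_C]; exact mul_ne_zero ha (h.2 u hu)

lemma S1.lin {N : ℕ} {L : Fn} (h : S1 (N + 1) L) (a b : ℝ) (hab : a ≠ 0 ∨ b ≠ 0) :
    S1 N (mu (C (a : ℂ) + C (b : ℂ) * X) L) := by
  by_cases ha : a = 0
  · have hb : b ≠ 0 := hab.resolve_left (not_not.mpr ha)
    have := h.der.smul (b : ℂ) (by exact_mod_cast hb)
    rw [mu_mu] at this
    rw [ha, Complex.ofReal_zero, map_zero, zero_add, mul_comm]; exact this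
  · have ha' : (a : ℂ) ≠ 0 := by exact_mod_cast ha
    have := (h.con ((b / a : ℝ) : ℂ) (by simp only [Complex.ofReal_im, le_refl])).smul (a : ℂ) ha'
    rw [mu_mu] at this
    have e : (1 + C ((b / a : ℝ) : ℂ) * X) * C (a : ℂ) = C (a : ℂ) + C (b : ℂ) * X := by
      have : ((b / a : ℝ) : ℂ) * a = b := by push_cast; field_simp
      rw [← this, map_mul]; ring
    rwa [e] at this

lemma S1.prod {ι : Type} [DecidableEq ι] (s : Finset ι) (a b : ι → ℝ) (hab : ∀ i, a i ≠ 0 ∨ b i ≠ 0)
    {N : ℕ} {L : Fn} (h : S1 (N + s.card) L) :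
    S1 N (mu (∏ i ∈ s, (C (a i : ℂ) + C (b i : ℂ) * X)) L) := by
  induction s using Finset.induction_on generalizing L with
  | empty => simpa [mu_one] using h
  | insert i s hi ih =>
    rw [Finset.card_insert_of_notMem hi] at h
    have := ih (S1.lin (N := N + s.card) h (a i) (b i) (hab i))
    rw [Finset.prod_insert hi, ← mu_mu]; exact this

lemma S0.prod (s : Multiset ℝ) {N : ℕ} {L : Fn} (h : S0 (N + s.card) L) :
    S0 N (mu (s.map fun x : ℝ => 1 + C (x : ℂ) * X).prod L) := by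
  induction s using Multiset.induction_on generalizing L with
  | empty => simpa [mu_one] using h
  | cons a s ih =>
    rw [Multiset.card_cons] at h
    have := ih (S0.con (N := N + s.card) h (a : ℂ) (by simp))
    rw [Multiset.map_cons, Multiset.prod_cons, ← mu_mu]; exact this

/-- sign lemma for a stable linear form -/
lemma lin_sign {L : Fn} (h : S1 1 L) (v w : ℝ) :
    ∃ t : ℝ, 0 < t ∧ (L (1 + C (v : ℂ) * X) * (starRingEnd ℂ) (L (1 + C (w : ℂ) * X))).im
      = t * (v - w) := by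
  have h1 : L X ≠ 0 := by simpa using h.1
  have e : ∀ u : ℂ, L (1 + C u * X) = L 1 + u * L X := fun u => by rw [map_add, L_C]
  have h2 : 0 < (-(L 1) / L X).im := by
    by_contra hh
    refine h.2 _ (not_lt.mp hh) ?_
    rw [pow_one, e]; field_simp; ring
  obtain ⟨r, hr⟩ : ∃ r, r = -(L 1) / L X := ⟨_, rfl⟩
  have h3 : L 1 = - r * L X := by rw [hr]; field_simp
  rw [← hr] at h2
  refine ⟨Complex.normSq (L X) * r.im, mul_pos (Complex.normSq_pos.mpr h1) h2, ?_⟩
  rw [e, e, h3]
  simp [Complex.normSq_apply]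
  ring

end

end Pool.Agent.H.MP_0cd67c_ag
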