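import Mathlib
import Pool.Agent.H.MP_0cd67c_ag.A

set_option autoImplicit false
set_option linter.unusedSectionVars false

namespace Pool.Agent.H.MP_0cd67c_ag
open Polynomial Finset

noncomputable section

variable {ι : Type} [Fintype ι] [DecidableEq ι]

def pr (s : Finset ι) (x : ι → ℝ) : ℂ[X] := ∏ i ∈ s, (1 + C (x i : ℂ) * X)

lemma S1.pr (s : Finset ι) (x : ι → ℝ) {N : ℕ} {L : Fn} (h : S1 (N + s.card) L) :
    S1 N (mu (pr s x) L) := by
  have := S1.prod s (fun _ => 1) x (fun _ => Or.inl one_ne_zero) h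
  simpa [MP_0cd67c_ag.pr] using this

lemma pr_pair (x : ι → ℝ) {i j : ι} (hij : i ≠ j) :
    pr univ x = (1 + C (x i : ℂ) * X) * ((1 + C (x j : ℂ) * X) * pr (univ \ {i, j}) x) := by
  unfold pr
  rw [← Finset.prod_sdiff (Finset.subset_univ {i, j}), Finset.prod_pair hij]
  ring

lemma descent (F Q : ℂ) (d : ℝ)
    (h : ∀ e : ℝ, Complex.normSq F ≤ Complex.normSq (F + ((e * (d - e) : ℝ) : ℂ) * Q)) :
    ((starRingEnd ℂ) F * Q).re ≤ 0 ∧ (d ≠ 0 → ((starRingEnd ℂ) F * Q).re = 0) := by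
  obtain ⟨r, hr⟩ : ∃ r, r = ((starRingEnd ℂ) F * Q).re := ⟨_, rfl⟩
  obtain ⟨q, hq⟩ : ∃ q, q = Complex.normSq Q := ⟨_, rfl⟩
  have q0 : 0 ≤ q := hq ▸ Complex.normSq_nonneg Q
  have h1 : ∀ t : ℝ, t ≤ d ^ 2 / 4 → 0 ≤ 2 * t * r + t ^ 2 * q := by
    intro t ht
    have hs := Real.sq_sqrt (show 0 ≤ d ^ 2 - 4 * t by linarith)
    have e : (d - √(d ^ 2 - 4 * t)) / 2 * (d - (d - √(d ^ 2 - 4 * t)) / 2) = t := by
      linear_combination (-1 / 4 : ℝ) * hs
    have := h ((d - √(d ^ 2 - 4 * t)) / 2)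
    rw [e] at this
    rw [hr, hq]
    simp only [Complex.normSq_apply, Complex.add_re, Complex.add_im, Complex.mul_re,
      Complex.mul_im, Complex.ofReal_re, Complex.ofReal_im, Complex.conj_re, Complex.conj_im]
      at this ⊢
    nlinarith
  rw [← hr]
  have a1 : r ≤ 0 := by
    by_contra hh
    push Not at hh
    have p : 0 < r / (q + 1) := by positivity
    have := h1 (-(r / (q + 1))) (by nlinarith [sq_nonneg d])
    have e : r / (q + 1) * (q + 1) = r := by field_simp
    obtain ⟨s, hs⟩ : ∃ s, s = r / (q + 1) := ⟨_, rfl⟩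
    rw [← hs] at this e p
    have : 0 ≤ s * (s * q - 2 * r) := by nlinarith
    have := nonneg_of_mul_nonneg_right this p |> fun h => h
    nlinarith
  refine ⟨a1, fun hd => le_antisymm a1 ?_⟩
  by_contra hh
  push Not at hh
  have d2 : 0 < d ^ 2 / 4 := by positivity
  have p : 0 < -r / (q + 1) := div_pos (by linarith) (by positivity)
  obtain ⟨s, hs⟩ : ∃ s, s = min (d ^ 2 / 4) (-r / (q + 1)) := ⟨_, rfl⟩
  have s0 : 0 < s := hs ▸ lt_min d2 p
  have s1 : s ≤ -r / (q + 1) := hs ▸ min_le_right _ _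
  have := h1 s (hs ▸ min_le_left _ _)
  rw [le_div_iff₀ (by positivity)] at s1
  have h2 : 0 ≤ s * (2 * r + s * q) := by nlinarith
  have h3 := le_of_mul_le_mul_left (a := s) (b := 0) (by simpa using h2) s0
  nlinarith

lemma move (L : Fn) (x : ι → ℝ) (hx : ∑ i, x i = 0)
    (hmin : ∀ y : ι → ℝ, ∑ i, y i = 0 → ‖L (pr univ x)‖ ≤ ‖L (pr univ y)‖) {i j : ι} (hij : i ≠ j) :
    ((starRingEnd ℂ) (L (pr univ x)) * L (X ^ 2 * pr (univ \ {i, j}) x)).re ≤ 0 ∧
    (x i ≠ x j → ((starRingEnd ℂ) (L (pr univ x)) * L (X ^ 2 * pr (univ \ {i, j}) x)).re = 0) := by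
  have := descent (L (pr univ x)) (L (X ^ 2 * pr (univ \ {i, j}) x)) (x j - x i) (fun e => ?_)
  · exact ⟨this.1, fun h => this.2 (sub_ne_zero.mpr h.symm)⟩
  have h := hmin (fun l => x l + (if l = i then e else 0) - (if l = j then e else 0)) (by
    simp [Finset.sum_sub_distrib, Finset.sum_add_distrib, hx])
  have e1 : pr (univ \ {i, j}) (fun l => x l + (if l = i then e else 0) - (if l = j then e else 0))
      = pr (univ \ {i, j}) x := by
    refine Finset.prod_congr rfl fun l hl => ?_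
    simp only [Finset.mem_sdiff, Finset.mem_univ, Finset.mem_insert, Finset.mem_singleton,
      true_and, not_or] at hl
    simp [hl.1, hl.2]
  have e2 : L (pr univ (fun l => x l + (if l = i then e else 0) - (if l = j then e else 0)))
      = L (pr univ x) + ((e * (x j - x i - e) : ℝ) : ℂ) * L (X ^ 2 * pr (univ \ {i, j}) x) := by
    rw [← L_C, ← map_add, pr_pair _ hij, pr_pair x hij, e1]
    congr 1
    simp only [hij, hij.symm, if_true, if_false]
    push_cast
    simp only [map_add, map_sub, map_mul, map_zero]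
    ring
  rw [e2] at h
  rw [Complex.normSq_eq_norm_sq, Complex.normSq_eq_norm_sq]
  exact pow_le_pow_left₀ (norm_nonneg _) h 2

lemma im_key (F A B : ℂ) (h : ((starRingEnd ℂ) F * B).re = 0) :
    Complex.normSq F * (A * (starRingEnd ℂ) B).im
      = - ((starRingEnd ℂ) F * A).re * ((starRingEnd ℂ) F * B).im := by
  simp only [Complex.normSq_apply, Complex.mul_re, Complex.mul_im, Complex.conj_re,
    Complex.conj_im] at h ⊢
  linear_combination (F.re * A.im - F.im * A.re) * h

lemma pr_insert {s : Finset ι} {i : ι} (h : i ∉ s) (x : ι → ℝ) :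
    pr (insert i s) x = (1 + C (x i : ℂ) * X) * pr s x := Finset.prod_insert h

theorem minform {n : ℕ} (hn : Fintype.card ι = n + 2) (L : Fn) (hL : S1 n (mu (X ^ 2) L))
    (x : ι → ℝ) (hx : ∑ i, x i = 0)
    (hmin : ∀ y : ι → ℝ, ∑ i, y i = 0 → ‖L (pr univ x)‖ ≤ ‖L (pr univ y)‖)
    (h0 : L (pr univ x) ≠ 0) : ∃ i, ∀ j k, j ≠ i → k ≠ i → x j = x k := by
  have nF : 0 < Complex.normSq (L (pr univ x)) := Complex.normSq_pos.mpr h0
  have three : ∀ i j k, x i ≠ x j → x i ≠ x k → x j = x k := by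
    intro i j k hij hik
    by_contra hjk
    have n1 : i ≠ j := fun h => hij (by rw [h])
    have n2 : i ≠ k := fun h => hik (by rw [h])
    have n3 : j ≠ k := fun h => hjk (by rw [h])
    have hc : n = 1 + (univ \ {i, j, k} : Finset ι).card := by
      have := Finset.card_sdiff_add_card_eq_card (Finset.subset_univ ({i, j, k} : Finset ι))
      rw [Finset.card_eq_three.mpr ⟨i, j, k, n1, n2, n3, rfl⟩, Finset.card_univ, hn] at this
      omega
    rw [hc] at hL
    obtain ⟨t, t0, ht⟩ := lin_sign (hL.pr _ x) (x j) (x k)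
    have e1 : (univ \ {i, j} : Finset ι) = insert k (univ \ {i, j, k}) := by grind
    have e2 : (univ \ {i, k} : Finset ι) = insert j (univ \ {i, j, k}) := by grind
    have m1 := (move L x hx hmin n1).2 hij
    have m2 := (move L x hx hmin n2).2 hik
    rw [e1, pr_insert (by simp), mul_comm _ (pr _ x)] at m1
    rw [e2, pr_insert (by simp), mul_comm _ (pr _ x)] at m2
    simp only [mu_apply] at ht
    have := im_key _ (L (X ^ 2 * (pr (univ \ {i, j, k}) x * (1 + C (x j : ℂ) * X)))) _ m1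
    rw [ht, m2] at this
    have h2 : Complex.normSq (L (pr univ x)) * (t * (x j - x k)) ≠ 0 :=
      mul_ne_zero nF.ne' (mul_ne_zero t0.ne' (sub_ne_zero.mpr hjk))
    exact h2 (by rw [this]; ring)
  have four : ∀ i i' j j', i ≠ i' → j ≠ j' → x i = x i' → x j = x j' → x i = x j := by
    intro i i' j j' hi hj ei ej
    by_contra hij
    have n1 : i ≠ j := fun h => hij (by rw [h])
    have n2 : i ≠ j' := fun h => hij (by rw [h, ej])
    have n3 : i' ≠ j := fun h => hij (by rw [ei, h])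
    have n4 : i' ≠ j' := fun h => hij (by rw [ei, h, ej])
    have hc : n = 1 + 1 + (univ \ {i, i', j, j'} : Finset ι).card := by
      have := Finset.card_sdiff_add_card_eq_card (Finset.subset_univ ({i, i', j, j'} : Finset ι))
      rw [Finset.card_insert_of_notMem (by simp [hi, n1, n2]),
        Finset.card_eq_three.mpr ⟨i', j, j', n3, n4, hj, rfl⟩, Finset.card_univ, hn] at this
      omega
    rw [hc] at hL
    have hL2 := hL.pr _ x
    obtain ⟨t, t0, ht⟩ := lin_sign (hL2.con (x i : ℂ) (by simp)) (x i) (x j)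
    obtain ⟨t', t0', ht'⟩ := lin_sign (hL2.con (x j : ℂ) (by simp)) (x j) (x i)
    have e1 : (univ \ {i, i'} : Finset ι) = insert j (insert j' (univ \ {i, i', j, j'})) := by grind
    have e2 : (univ \ {j, j'} : Finset ι) = insert i (insert i' (univ \ {i, i', j, j'})) := by grind
    have e3 : (univ \ {i', j'} : Finset ι) = insert i (insert j (univ \ {i, i', j, j'})) := by grind
    have m1 := (move L x hx hmin hi).1
    have m2 := (move L x hx hmin hj).1
    have m3 := (move L x hx hmin n4).2 (by rw [← ei, ← ej]; exact hij)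
    rw [e1, pr_insert (by simp [hj]), pr_insert (by simp), ← ej] at m1
    rw [e2, pr_insert (by simp [hi]), pr_insert (by simp), ← ei] at m2
    rw [e3, pr_insert (by simp [n1]), pr_insert (by simp)] at m3
    simp only [mu_apply] at ht ht'
    obtain ⟨P, hP⟩ : ∃ P, P = pr (univ \ {i, i', j, j'}) x := ⟨_, rfl⟩
    obtain ⟨V, hV⟩ : ∃ V : ℂ[X], V = 1 + C (x i : ℂ) * X := ⟨_, rfl⟩
    obtain ⟨W, hW⟩ : ∃ W : ℂ[X], W = 1 + C (x j : ℂ) * X := ⟨_, rfl⟩
    rw [← hP] at m1 m2 m3 ht ht'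
    rw [← hV] at m2 m3 ht ht'
    rw [← hW] at m1 m3 ht ht'
    rw [show P * (V * V) = V * (V * P) by ring, show P * (V * W) = V * (W * P) by ring] at ht
    rw [show P * (W * W) = W * (W * P) by ring, show P * (W * V) = V * (W * P) by ring] at ht'
    have k1 := im_key _ (L (X ^ 2 * (V * (V * P)))) _ m3
    have k2 := im_key _ (L (X ^ 2 * (W * (W * P)))) _ m3
    rw [ht] at k1
    rw [ht'] at k2
    obtain ⟨a, ha⟩ : ∃ a, a = ((starRingEnd ℂ) (L (pr univ x)) * L (X ^ 2 * (V * (V * P)))).re :=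
      ⟨_, rfl⟩
    obtain ⟨c, hc'⟩ : ∃ c, c = ((starRingEnd ℂ) (L (pr univ x)) * L (X ^ 2 * (W * (W * P)))).re :=
      ⟨_, rfl⟩
    obtain ⟨b, hb⟩ : ∃ b, b = ((starRingEnd ℂ) (L (pr univ x)) * L (X ^ 2 * (V * (W * P)))).im :=
      ⟨_, rfl⟩
    obtain ⟨f, hf⟩ : ∃ f, f = Complex.normSq (L (pr univ x)) := ⟨_, rfl⟩
    rw [← ha] at m2 k1
    rw [← hc'] at m1 k2
    rw [← hb] at k1 k2
    rw [← hf] at k1 k2 nF
    have p1 : 0 < (f * t) * (f * t') * (x i - x j) ^ 2 :=
      mul_pos (mul_pos (mul_pos nF t0) (mul_pos nF t0')) (by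
        have := sub_ne_zero.mpr hij
        positivity)
    have p2 : 0 ≤ a * c * b ^ 2 := mul_nonneg (mul_nonneg_of_nonpos_of_nonpos m2 m1) (sq_nonneg b)
    have p3 : (f * t) * (f * t') * (x i - x j) ^ 2 = -(a * c * b ^ 2) := by
      have : (f * (t * (x i - x j))) * (f * (t' * (x j - x i))) = (-a * b) * (-c * b) := by
        rw [k1, k2]
      linear_combination -this
    linarith
  by_contra hne
  push Not at hne
  have : Nonempty ι := Fintype.card_pos_iff.mp (by omega)
  obtain ⟨i⟩ := this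
  have key : ∀ i j k, j ≠ i → x i = x j → x j ≠ x k → False := by
    intro i j k hji e hjk
    obtain ⟨j', k', h1, h2, h3⟩ := hne k
    by_cases h4 : x j' = x j
    · have h5 : x j ≠ x k' := by rw [← h4]; exact h3
      exact hjk (e ▸ four i j k k' hji.symm h2.symm e (three j k k' hjk h5))
    · exact hjk (e ▸ four i j k j' hji.symm h1.symm e (three j k j' hjk (Ne.symm h4)))
  obtain ⟨j, k, h1, h2, h3⟩ := hne i
  by_cases h4 : x i = x j
  · exact key i j k h1 h4 h3
  · have h5 : x i = x k := three j i k (Ne.symm h4) h3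
    exact key i k j h2 h5 (Ne.symm h3)

end

end Pool.Agent.H.MP_0cd67c_ag
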