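import Mathlib
import Pool.Agent.H.MP_0cd67c_ag.B

set_option autoImplicit false
set_option linter.unusedSectionVars false

namespace Pool.Agent.H.MP_0cd67c_ag
open Polynomial Finset

noncomputable section

def lf (c : ℕ → ℂ) : Fn := Polynomial.lsum (fun k => LinearMap.mulRight ℂ (c k))

lemma lf_mono (c : ℕ → ℂ) (k : ℕ) (a : ℂ) : lf c (monomial k a) = a * c k := by
  simp [lf, Polynomial.lsum_apply, sum_monomial_index]

lemma lf_X (c : ℕ → ℂ) : mu X (lf c) = lf (fun k => c (k + 1)) := by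
  ext k
  simp only [LinearMap.comp_apply, mu_apply, lf_mono, X_mul_monomial]

lemma lf_range (c : ℕ → ℂ) (p : ℂ[X]) (n : ℕ) (h : p.natDegree < n) :
    lf c p = ∑ k ∈ range n, p.coeff k * c k := by
  conv_lhs => rw [p.as_sum_range' n h]
  rw [map_sum]
  exact Finset.sum_congr rfl fun k _ => lf_mono c k _

variable {ι : Type} [Fintype ι] [DecidableEq ι] {Y : Type} [TopologicalSpace Y]

lemma cont_lf (s : Finset ι) (a b : Y → ι → ℂ) (ha : ∀ l, Continuous fun y => a y l)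
    (hb : ∀ l, Continuous fun y => b y l) (c : Y → ℕ → ℂ) (hc : ∀ k, Continuous fun y => c y k) :
    Continuous fun y => lf (c y) (∏ l ∈ s, (C (a y l) + C (b y l) * X)) := by
  induction s using Finset.induction_on generalizing c with
  | empty =>
    simp only [Finset.prod_empty, ← monomial_zero_one, lf_mono, one_mul]
    exact hc 0
  | insert i s hi ih =>
    have h1 := ih c hc
    have h2 := ih (fun y k => c y (k + 1)) (fun k => hc (k + 1))
    refine (((ha i).mul h1).add ((hb i).mul h2)).congr fun y => ?_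
    rw [Finset.prod_insert hi, add_mul, map_add, L_C, mul_assoc, L_C, ← mu_apply X, lf_X]
    rfl

lemma cont_pr (c : Y → ℕ → ℂ) (hc : ∀ k, Continuous fun y => c y k) :
    Continuous fun p : Y × (ι → ℝ) => lf (c p.1) (pr univ p.2) := by
  have := cont_lf (Y := Y × (ι → ℝ)) univ (fun _ _ => 1) (fun p l => (p.2 l : ℂ))
    (fun _ => continuous_const) (fun l => by fun_prop) (fun p => c p.1)
    (fun k => (hc k).comp continuous_fst)
  simpa [pr] using this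

lemma proper_pair {n : ℕ} (hn : Fintype.card ι = n + 2) (K : Set Y) (hK : IsCompact K)
    (c : Y → ℕ → ℂ) (hc : ∀ k, Continuous fun y => c y k)
    (hS : ∀ y ∈ K, S1 n (mu (X ^ 2) (lf (c y)))) (M : ℝ) {i j : ι} (hij : i ≠ j) :
    ∃ r : ℝ, ∀ y ∈ K, ∀ x : ι → ℝ, r ≤ |x i| → r ≤ |x j| → M ≤ ‖lf (c y) (pr univ x)‖ := by
  obtain ⟨s, hs⟩ : ∃ s : Finset ι, s = univ \ {i, j} := ⟨_, rfl⟩
  have sc : s.card = n := by
    have := Finset.card_sdiff_add_card_eq_card (Finset.subset_univ ({i, j} : Finset ι))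
    rw [Finset.card_pair hij, Finset.card_univ, hn, ← hs] at this
    omega
  let D : Set (ℝ × ℝ) := {p | |p.1| + |p.2| = 1}
  have hD : IsCompact D := by
    refine Metric.isCompact_of_isClosed_isBounded (isClosed_eq (by fun_prop) continuous_const) ?_
    refine (Metric.isBounded_closedBall (x := 0) (r := 1)).subset fun p hp => ?_
    have hp' : |p.1| + |p.2| = 1 := hp
    rw [mem_closedBall_zero_iff, Prod.norm_def, Real.norm_eq_abs, Real.norm_eq_abs]
    exact max_le (by linarith [abs_nonneg p.2]) (by linarith [abs_nonneg p.1])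
  have hKK : IsCompact (K ×ˢ Set.pi Set.univ (fun _ : ι => D)) :=
    hK.prod (isCompact_univ_pi fun _ => hD)
  let G : ℕ → Y × (ι → ℝ × ℝ) → ℂ := fun m p =>
    lf (fun k => c p.1 (k + m)) (∏ l ∈ s, (C ((p.2 l).1 : ℂ) + C ((p.2 l).2 : ℂ) * X))
  have Gc : ∀ m, Continuous (G m) := fun m =>
    cont_lf (Y := Y × (ι → ℝ × ℝ)) s (fun p l => ((p.2 l).1 : ℂ)) (fun p l => ((p.2 l).2 : ℂ))
      (fun l => by fun_prop) (fun l => by fun_prop) (fun p k => c p.1 (k + m))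
      (fun k => (hc (k + m)).comp continuous_fst)
  have e1 : ∀ y, lf (fun k => c y (k + 1)) = mu X (lf (c y)) := fun y => (lf_X _).symm
  have e2 : ∀ y, lf (fun k => c y (k + 2)) = mu (X ^ 2) (lf (c y)) := fun y => by
    rw [pow_two, ← mu_mu, lf_X, lf_X]
  obtain ⟨ε, ε0, hε⟩ := hKK.exists_forall_le' (a := 0) (f := fun p => ‖G 2 p‖)
    (Gc 2).norm.continuousOn (fun p hp => by
      rw [norm_pos_iff]
      have h := (S1.prod s (fun l => (p.2 l).1) (fun l => (p.2 l).2) (fun l => by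
        have hp' : |(p.2 l).1| + |(p.2 l).2| = 1 := hp.2 l (Set.mem_univ l)
        by_contra hh
        push Not at hh
        rw [hh.1, hh.2] at hp'
        norm_num at hp') (N := 0) (by rw [zero_add, sc]; exact hS p.1 hp.1)).1
      rw [pow_zero, mu_apply, mul_one, ← e2] at h
      exact h)
  obtain ⟨B0, hB0⟩ := hKK.exists_bound_of_continuousOn (Gc 0).continuousOn
  obtain ⟨B1, hB1⟩ := hKK.exists_bound_of_continuousOn (Gc 1).continuousOn
  obtain ⟨B, hB⟩ : ∃ B, B = |B0| + |B1| := ⟨_, rfl⟩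
  have Bp : 0 ≤ B := by rw [hB]; positivity
  refine ⟨1 + 2 * (2 * B + |M|) / ε, fun y hy x hi hj => ?_⟩
  let p : Y × (ι → ℝ × ℝ) := (y, fun l => (1 / (1 + |x l|), x l / (1 + |x l|)))
  have hp : p ∈ K ×ˢ Set.pi Set.univ (fun _ : ι => D) := by
    refine ⟨hy, fun l _ => ?_⟩
    change |1 / (1 + |x l|)| + |x l / (1 + |x l|)| = 1
    have : 0 < 1 + |x l| := by positivity
    rw [abs_div, abs_div, abs_of_pos this, abs_one]
    field_simp
  obtain ⟨P, hP⟩ : ∃ P : ℂ[X], P = ∏ l ∈ s, (C ((p.2 l).1 : ℂ) + C ((p.2 l).2 : ℂ) * X) := ⟨_, rfl⟩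
  have hW : pr s x = C ((∏ l ∈ s, (1 + |x l|) : ℝ) : ℂ) * P := by
    rw [hP, pr]
    push_cast
    rw [map_prod, ← Finset.prod_mul_distrib]
    refine Finset.prod_congr rfl fun l _ => ?_
    have h0 : (1 + ((|x l| : ℝ) : ℂ)) ≠ 0 := by
      have : 0 < 1 + |x l| := by positivity
      exact_mod_cast this.ne'
    change _ = C _ * (C (((1 / (1 + |x l|) : ℝ)) : ℂ) + C (((x l / (1 + |x l|)) : ℝ) : ℂ) * X)
    rw [mul_add, ← mul_assoc, ← map_mul, ← map_mul]
    push_cast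
    rw [mul_one_div_cancel h0, mul_div_cancel₀ _ h0, map_one]
  have W1 : 1 ≤ ∏ l ∈ s, (1 + |x l|) :=
    Finset.one_le_prod fun l _ => by linarith [abs_nonneg (x l)]
  have hF : lf (c y) (pr univ x) = ((∏ l ∈ s, (1 + |x l|) : ℝ) : ℂ) *
      (G 0 p + ((x i : ℂ) + x j) * G 1 p + (x i : ℂ) * x j * G 2 p) := by
    have g0 : G 0 p = lf (c y) P := by rw [hP]; rfl
    have g1 : G 1 p = lf (c y) (X * P) := by rw [hP, ← mu_apply, ← e1]
    have g2 : G 2 p = lf (c y) (X ^ 2 * P) := by rw [hP, ← mu_apply, ← e2]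
    rw [g0, g1, g2, ← L_C, ← L_C, ← map_add, ← map_add, ← L_C, pr_pair x hij, ← hs, hW]
    congr 1
    simp only [map_add, map_mul]
    ring
  have n0 : ‖G 0 p‖ ≤ B := by
    have := hB0 p hp
    rw [hB]; linarith [le_abs_self B0, abs_nonneg B1]
  have n1 : ‖G 1 p‖ ≤ B := by
    have := hB1 p hp
    rw [hB]; linarith [le_abs_self B1, abs_nonneg B0]
  have n2 : ε ≤ ‖G 2 p‖ := hε p hp
  obtain ⟨a, ha⟩ : ∃ a, a = |x i| := ⟨_, rfl⟩
  obtain ⟨b, hb⟩ : ∃ b, b = |x j| := ⟨_, rfl⟩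
  have t1 : ‖((x i : ℂ) + x j) * G 1 p‖ ≤ (a + b) * B := by
    rw [norm_mul]
    refine mul_le_mul ((norm_add_le _ _).trans ?_) n1 (norm_nonneg _) (by rw [ha, hb]; positivity)
    rw [ha, hb]; simp
  have t2 : a * b * ε ≤ ‖(x i : ℂ) * x j * G 2 p‖ := by
    rw [norm_mul, norm_mul, Complex.norm_real, Complex.norm_real, Real.norm_eq_abs,
      Real.norm_eq_abs, ← ha, ← hb]
    exact mul_le_mul_of_nonneg_left n2 (by rw [ha, hb]; positivity)
  have t3 : ‖(x i : ℂ) * x j * G 2 p‖ ≤ ‖G 0 p + ((x i : ℂ) + x j) * G 1 p + (x i : ℂ) * x j * G 2 p‖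
      + ‖G 0 p‖ + ‖((x i : ℂ) + x j) * G 1 p‖ := by
    have : (x i : ℂ) * x j * G 2 p = (G 0 p + ((x i : ℂ) + x j) * G 1 p + (x i : ℂ) * x j * G 2 p)
      - G 0 p - ((x i : ℂ) + x j) * G 1 p := by ring
    conv_lhs => rw [this]
    exact (norm_sub_le _ _).trans (add_le_add_left (norm_sub_le _ _) _)
  rw [← ha] at hi
  rw [← hb] at hj
  obtain ⟨r, hr⟩ : ∃ r, r = 1 + 2 * (2 * B + |M|) / ε := ⟨_, rfl⟩
  have r1 : 1 ≤ r := by
    rw [hr]; have : 0 ≤ 2 * (2 * B + |M|) / ε := by positivity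
    linarith
  have r2 : r * ε = ε + 2 * (2 * B + |M|) := by rw [hr]; field_simp
  rw [← hr] at hi hj
  have q1 : r * (a + b) ≤ 2 * (a * b) := by nlinarith
  have q2 : r * (a + b) * ε ≤ 2 * (a * b) * ε := mul_le_mul_of_nonneg_right q1 ε0.le
  have q3 : r * (a + b) * ε = (a + b) * (ε + 2 * (2 * B + |M|)) := by rw [← r2]; ring
  have q4 : 2 * (B + |M|) ≤ (a + b) * (B + |M|) :=
    mul_le_mul_of_nonneg_right (by linarith) (by positivity)
  have q5 : 0 ≤ (a + b) * ε := mul_nonneg (by linarith) ε0.le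
  have q6 : M ≤ ‖G 0 p + ((x i : ℂ) + x j) * G 1 p + (x i : ℂ) * x j * G 2 p‖ := by
    linarith [le_abs_self M, abs_nonneg M]
  rw [hF, norm_mul, Complex.norm_real, Real.norm_eq_abs, abs_of_pos (by linarith)]
  exact q6.trans (le_mul_of_one_le_left (norm_nonneg _) W1)

lemma proper {n : ℕ} (hn : Fintype.card ι = n + 2) (K : Set Y) (hK : IsCompact K)
    (c : Y → ℕ → ℂ) (hc : ∀ k, Continuous fun y => c y k)
    (hS : ∀ y ∈ K, S1 n (mu (X ^ 2) (lf (c y)))) (M : ℝ) :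
    ∃ R : ℝ, ∀ y ∈ K, ∀ x : ι → ℝ, ∑ i, x i = 0 → R < ‖x‖ → M ≤ ‖lf (c y) (pr univ x)‖ := by
  have h : ∀ q : ι × ι, ∃ r : ℝ, q.1 ≠ q.2 → ∀ y ∈ K, ∀ x : ι → ℝ, r ≤ |x q.1| → r ≤ |x q.2| →
      M ≤ ‖lf (c y) (pr univ x)‖ := by
    intro q
    by_cases hq : q.1 = q.2
    · exact ⟨0, fun h => absurd hq h⟩
    · obtain ⟨r, hr⟩ := proper_pair hn K hK c hc hS M hq
      exact ⟨r, fun _ => hr⟩
  choose r hr using h
  refine ⟨(n + 2) * ‖r‖, fun y hy x hx hR => ?_⟩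
  have rq : ∀ q, r q ≤ ‖r‖ := fun q => (le_abs_self _).trans (norm_le_pi_norm r q)
  have r0 := norm_nonneg r
  obtain ⟨i, hi⟩ : ∃ i, (n + 2) * ‖r‖ < |x i| := by
    by_contra hh
    push Not at hh
    exact absurd ((pi_norm_le_iff_of_nonneg (by positivity)).mpr hh) (not_le.mpr hR)
  obtain ⟨j, hj, hj'⟩ : ∃ j, j ≠ i ∧ ‖r‖ ≤ |x j| := by
    by_contra hh
    push Not at hh
    rw [← Finset.add_sum_erase _ _ (Finset.mem_univ i)] at hx
    have h1 : |x i| = |∑ j ∈ univ.erase i, x j| := by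
      rw [eq_neg_of_add_eq_zero_left hx, abs_neg]
    have h2 := Finset.abs_sum_le_sum_abs x (univ.erase i)
    have h3 : ∑ j ∈ univ.erase i, |x j| ≤ ∑ _j ∈ univ.erase i, ‖r‖ :=
      Finset.sum_le_sum fun j hj => (hh j (Finset.ne_of_mem_erase hj)).le
    rw [Finset.sum_const, Finset.card_erase_of_mem (Finset.mem_univ i), Finset.card_univ, hn,
      nsmul_eq_mul] at h3
    have : ((n + 2 - 1 : ℕ) : ℝ) = n + 1 := by
      rw [show n + 2 - 1 = n + 1 by omega]; push_cast; ring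
    rw [this] at h3
    linarith
  refine hr (i, j) hj.symm y hy x ((rq _).trans ?_) ((rq _).trans hj')
  have : (0:ℝ) ≤ n := Nat.cast_nonneg n
  nlinarith

theorem homotopy {n : ℕ} (hn : Fintype.card ι = n + 2) (t1 : ℝ)
    (c : ℝ → ℕ → ℂ) (hc : ∀ k, Continuous fun y => c y k)
    (hS : ∀ y ∈ Set.Icc 0 t1, S1 n (mu (X ^ 2) (lf (c y)))) (M : ℝ) (M0 : 0 < M)
    (hl : ∀ y ∈ Set.Icc 0 t1, ∀ x : ι → ℝ, ∑ i, x i = 0 →
      (∃ i, ∀ j k, j ≠ i → k ≠ i → x j = x k) → M ≤ ‖lf (c y) (pr univ x)‖)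
    (h0 : ∀ x : ι → ℝ, ∑ i, x i = 0 → M ≤ ‖lf (c 0) (pr univ x)‖) :
    ∀ y ∈ Set.Icc 0 t1, ∀ x : ι → ℝ, ∑ i, x i = 0 → M ≤ ‖lf (c y) (pr univ x)‖ := by
  obtain ⟨R, hR⟩ := proper hn _ isCompact_Icc c hc hS M
  have hcont := cont_pr (ι := ι) c hc
  let K : Set (ι → ℝ) := Metric.closedBall 0 R ∩ {x | ∑ i, x i = 0}
  have hK : IsCompact K :=
    (isCompact_closedBall 0 R).inter_right (isClosed_eq (by fun_prop) continuous_const)
  let T : Set ℝ := {y | ∀ x : ι → ℝ, ∑ i, x i = 0 → M ≤ ‖lf (c y) (pr univ x)‖}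
  let Z : Set ℝ := Prod.fst '' ((Set.Icc 0 t1 ×ˢ K) ∩ {p | lf (c p.1) (pr univ p.2) = 0})
  have hT : IsClosed T := by
    have : T = ⋂ x : ι → ℝ, ⋂ _ : ∑ i, x i = 0, {y | M ≤ ‖lf (c y) (pr univ x)‖} := by
      ext y; simp [T]
    rw [this]
    refine isClosed_iInter fun x => isClosed_iInter fun _ => isClosed_le continuous_const ?_
    exact (hcont.comp (Continuous.prodMk_left x)).norm
  have hZ : IsClosed Z :=
    (((isCompact_Icc.prod hK).inter_right (isClosed_eq hcont continuous_const)).image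
      continuous_fst).isClosed
  have cover : Set.Icc 0 t1 ⊆ T ∪ Z := by
    intro y hy
    by_cases hyT : y ∈ T
    · exact Or.inl hyT
    right
    have hyT' : ∃ x : ι → ℝ, ∑ i, x i = 0 ∧ ‖lf (c y) (pr univ x)‖ < M := by
      by_contra hh
      push Not at hh
      exact hyT hh
    obtain ⟨x0, hx0, hx1⟩ := hyT'
    have x0K : x0 ∈ K := ⟨by
      rw [mem_closedBall_zero_iff]
      by_contra hh
      exact absurd (hR y hy x0 hx0 (not_le.mp hh)) (not_le.mpr hx1), hx0⟩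
    obtain ⟨x, hxK, hx⟩ := hK.exists_isMinOn ⟨x0, x0K⟩
      (f := fun x => ‖lf (c y) (pr univ x)‖)
      (hcont.comp (Continuous.prodMk_right y)).norm.continuousOn
    have hlt : ‖lf (c y) (pr univ x)‖ < M := lt_of_le_of_lt (hx x0K) hx1
    refine ⟨(y, x), ⟨⟨hy, hxK⟩, ?_⟩, rfl⟩
    by_contra hne
    refine absurd (hl y hy x hxK.2 (minform hn _ (hS y hy) x hxK.2 (fun z hz => ?_) hne))
      (not_le.mpr hlt)
    by_cases hzR : ‖z‖ ≤ R
    · exact hx ⟨mem_closedBall_zero_iff.mpr hzR, hz⟩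
    · exact hlt.le.trans (hR y hy z hz (not_le.mp hzR))
  intro y hy
  by_contra hyT
  have hyZ : y ∈ Z := (cover hy).resolve_left fun h => hyT h
  obtain ⟨w, _, hwT, ⟨p, ⟨⟨_, hp2⟩, hp3⟩, rfl⟩⟩ := isPreconnected_closed_iff.mp
    (isPreconnected_Icc (a := 0) (b := t1)) T Z hT hZ cover
    ⟨0, ⟨le_rfl, hy.1.trans hy.2⟩, h0⟩ ⟨y, hy, hyZ⟩
  have := hwT p.2 hp2.2
  have hp3' : lf (c p.1) (pr univ p.2) = 0 := hp3
  rw [hp3', norm_zero] at this
  linarith

end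

end Pool.Agent.H.MP_0cd67c_ag
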