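import Mathlib
import Pool.Agent.H.MP_0cd67c_ag.C

set_option autoImplicit false
set_option linter.unusedSectionVars false

namespace Pool.Agent.H.MP_0cd67c_ag
open Polynomial Finset

noncomputable section

variable {ι κ : Type} [Fintype ι] [DecidableEq ι] [Fintype κ] [DecidableEq κ]

lemma lin_coeff (a : ℂ) (P : ℂ[X]) (k : ℕ) :
    ((1 + C a * X) * P).coeff (k + 1) = P.coeff (k + 1) + a * P.coeff k := by
  rw [add_mul, one_mul, coeff_add, mul_assoc, coeff_C_mul, coeff_X_mul]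

lemma pr_deg (s : Finset ι) (x : ι → ℝ) : (pr s x).natDegree ≤ s.card := by
  refine (natDegree_prod_le _ _).trans ?_
  rw [Finset.card_eq_sum_ones]
  exact Finset.sum_le_sum fun i _ => by compute_degree

lemma pr_zero (s : Finset ι) (x : ι → ℝ) : (pr s x).coeff 0 = 1 := by
  simp [pr, coeff_zero_eq_eval_zero, eval_prod]

lemma pr_one (s : Finset ι) (x : ι → ℝ) : (pr s x).coeff 1 = ((∑ i ∈ s, x i : ℝ) : ℂ) := by
  induction s using Finset.induction_on with
  | empty => simp [pr, coeff_one]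
  | insert i s hi ih =>
    rw [pr_insert hi, lin_coeff, ih, pr_zero, Finset.sum_insert hi]; push_cast; ring

lemma pr_top (s : Finset ι) (x : ι → ℝ) : (pr s x).coeff s.card = ((∏ i ∈ s, x i : ℝ) : ℂ) := by
  induction s using Finset.induction_on with
  | empty => simp [pr]
  | insert i s hi ih =>
    rw [pr_insert hi, Finset.card_insert_of_notMem hi, lin_coeff, ih,
      coeff_eq_zero_of_natDegree_lt ((pr_deg s x).trans_lt (Nat.lt_succ_self _)),
      Finset.prod_insert hi]; push_cast; ring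

lemma lin_norm (w : ℂ) (hw : 0 < w.im) (r : ℝ) : w.im / ‖w‖ ≤ ‖1 + r * w‖ := by
  have w0 : 0 < ‖w‖ := norm_pos_iff.mpr (by rintro rfl; simp at hw)
  rw [div_le_iff₀ w0, ← Complex.norm_conj w, ← norm_mul]
  refine le_trans ?_ (Complex.abs_im_le_norm _)
  have : ((1 + r * w) * (starRingEnd ℂ) w).im = -w.im := by simp; ring
  rw [this, abs_neg]; exact le_abs_self _

lemma pr_norm (s : Finset ι) (x : ι → ℝ) (w : ℂ) (hw : 0 < w.im) (t : ℝ) :
    (w.im / ‖w‖) ^ s.card ≤ ‖(pr s x).eval (t * w)‖ := by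
  rw [pr, eval_prod, norm_prod, ← Finset.prod_const]
  refine Finset.prod_le_prod (fun _ _ => by positivity) fun i _ => ?_
  have := lin_norm w hw (x i * t)
  simpa [mul_assoc] using this

def qq (N k : ℕ) : ℂ := (N.choose k : ℂ) * (1 - k)

lemma qq_ne {N k : ℕ} (h : k ≤ N) (h1 : k ≠ 1) : qq N k ≠ 0 := by
  refine mul_ne_zero (by exact_mod_cast (Nat.choose_pos h).ne') (sub_ne_zero.mpr ?_)
  exact_mod_cast h1.symm

lemma pow_coeff (u : ℂ) (m k : ℕ) : ((1 + C u * X) ^ m).coeff k = (m.choose k : ℂ) * u ^ k := by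
  have : (1 + C u * X) ^ m = ((1 + X : ℂ[X]) ^ m).comp (C u * X) := by simp
  rw [this, comp_C_mul_X_coeff, coeff_one_add_X_pow]

lemma q_coeff (s : ℂ) (m k : ℕ) :
    ((1 + C (-(m * s)) * X) * (1 + C s * X) ^ m).coeff k = qq (m + 1) k * s ^ k := by
  cases k with
  | zero => simp [qq, coeff_zero_eq_eval_zero]
  | succ k =>
    rw [lin_coeff, pow_coeff, pow_coeff, qq, Nat.choose_succ_succ']
    have h : ((m.choose (k + 1) : ℕ) : ℂ) * (k + 1) = (m.choose k : ℂ) * (m - k) := by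
      by_cases hk : k ≤ m
      · have := congrArg (Nat.cast : ℕ → ℂ) (Nat.choose_succ_right_eq m k)
        push_cast [Nat.cast_sub hk] at this
        exact this
      · rw [Nat.choose_eq_zero_of_lt (by omega), Nat.choose_eq_zero_of_lt (by omega)]; simp
    push_cast
    linear_combination s ^ (k + 1) * h

lemma line_form {n : ℕ} (hn : Fintype.card ι = n + 2) (x : ι → ℝ) (hx : ∑ i, x i = 0)
    (h : ∃ i, ∀ j k, j ≠ i → k ≠ i → x j = x k) :
    ∃ s : ℝ, ∀ k, (pr univ x).coeff k = qq (n + 2) k * (s : ℂ) ^ k := by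
  obtain ⟨i, hi⟩ := h
  have : Nontrivial ι := Fintype.one_lt_card_iff_nontrivial.mp (by omega)
  obtain ⟨j, hj⟩ := exists_ne i
  refine ⟨x j, fun k => ?_⟩
  have hc : (univ.erase i).card = n + 1 := by
    rw [Finset.card_erase_of_mem (Finset.mem_univ i), Finset.card_univ, hn]; rfl
  rw [← Finset.add_sum_erase _ _ (Finset.mem_univ i),
    Finset.sum_congr rfl fun l hl => hi l j (Finset.ne_of_mem_erase hl) hj, Finset.sum_const, hc,
    nsmul_eq_mul] at hx
  have e : pr (univ.erase i) x = (1 + C (x j : ℂ) * X) ^ (n + 1) := by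
    rw [pr, Finset.prod_congr rfl fun l hl => by rw [hi l j (Finset.ne_of_mem_erase hl) hj],
      Finset.prod_const, hc]
  rw [← Finset.insert_erase (Finset.mem_univ i), pr_insert (by simp), e, ← q_coeff,
    eq_neg_of_add_eq_zero_left hx]
  push_cast
  rfl

def yy (b : κ → ℝ) : Option κ → ℝ := fun o => o.elim (-∑ l, b l) b

def hb (b : κ → ℝ) : ℂ[X] := pr univ (yy b)

lemma hb_eq (b : κ → ℝ) : hb b = (1 + C ((-∑ l, b l : ℝ) : ℂ) * X) * pr univ b := by
  rw [hb, pr, Fintype.prod_option]; rfl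

lemma yy_sum (b : κ → ℝ) : ∑ o, yy b o = 0 := by
  rw [Fintype.sum_option]; simp [yy]

lemma hb_one (b : κ → ℝ) : (hb b).coeff 1 = 0 := by
  rw [hb, pr_one, yy_sum]; simp

def cc (N : ℕ) (h : ℂ[X]) (w : ℂ) : ℕ → ℂ := fun k => h.coeff k * w ^ k / qq N k

lemma cc_symm (N : ℕ) (h p : ℂ[X]) (w : ℂ) (hd : h.natDegree ≤ N) (pd : p.natDegree ≤ N) :
    lf (cc N h w) p = lf (cc N p w) h := by
  rw [lf_range _ _ (N + 1) (by omega), lf_range _ _ (N + 1) (by omega)]
  exact Finset.sum_congr rfl fun k _ => by simp only [cc]; ring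

lemma pairing (N : ℕ) (h p : ℂ[X]) (w s : ℂ) (hd : h.natDegree ≤ N) (pd : p.natDegree ≤ N)
    (h1 : h.coeff 1 = 0) (hp : ∀ k, p.coeff k = qq N k * s ^ k) :
    lf (cc N h w) p = h.eval (s * w) := by
  rw [lf_range _ _ (N + 1) (by omega), eval_eq_sum_range' (n := N + 1) (by omega)]
  refine Finset.sum_congr rfl fun k hk => ?_
  rw [hp, cc]
  by_cases hk1 : k = 1
  · rw [hk1, h1]; simp
  · have := qq_ne (Nat.lt_succ_iff.mp (Finset.mem_range.mp hk)) hk1
    rw [mul_pow]
    field_simp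

def Qb (b : κ → ℝ) : ℂ[X] :=
  ∑ i, C ((b i * (∑ l, b l + b i) : ℝ) : ℂ) * pr (univ.erase i) b

lemma hb_der (b : κ → ℝ) : derivative (hb b) = -(X * Qb b) := by
  have e1 : derivative (pr univ b) = ∑ i, C (b i : ℂ) * pr (univ.erase i) b := by
    rw [pr, derivative_prod_finset]
    refine Finset.sum_congr rfl fun i _ => ?_
    rw [mul_comm]; simp [pr]
  have e2 : C ((∑ l, b l : ℝ) : ℂ) * pr univ b
      = ∑ i, C (b i : ℂ) * ((1 + C (b i : ℂ) * X) * pr (univ.erase i) b) := by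
    push_cast
    rw [map_sum, Finset.sum_mul]
    refine Finset.sum_congr rfl fun i _ => ?_
    rw [← pr_insert (Finset.notMem_erase i univ), Finset.insert_erase (Finset.mem_univ i)]
  rw [hb_eq, derivative_mul, e1]
  simp only [derivative_add, derivative_one, derivative_mul, derivative_C, derivative_X, zero_mul,
    zero_add, mul_one, Complex.ofReal_neg, map_neg, neg_mul]
  rw [e2, Qb, Finset.mul_sum, Finset.mul_sum, ← Finset.sum_neg_distrib, ← Finset.sum_neg_distrib,
    ← Finset.sum_add_distrib]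
  refine Finset.sum_congr rfl fun i _ => ?_
  simp only [Complex.ofReal_mul, Complex.ofReal_add, map_mul, map_add]
  ring

lemma Qb_deg {n : ℕ} (hn : Fintype.card κ = n + 1) (b : κ → ℝ) : (Qb b).natDegree ≤ n := by
  refine natDegree_sum_le_of_forall_le _ _ fun i _ => (natDegree_C_mul_le _ _).trans ?_
  refine (pr_deg _ _).trans ?_
  rw [Finset.card_erase_of_mem (Finset.mem_univ i), Finset.card_univ, hn]; rfl

lemma cc_two (n : ℕ) (b : κ → ℝ) (w : ℂ) (j : ℕ) (hj : j ≤ n) :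
    (n.choose j : ℂ) * cc (n + 2) (hb b) w (j + 2)
      = w ^ 2 / ((n + 2) * (n + 1)) * ((Qb b).coeff j * w ^ j) := by
  have h1 := congrArg (fun p => p.coeff (j + 1)) (hb_der b)
  simp only [coeff_derivative, coeff_neg, coeff_X_mul] at h1
  have c1 := congrArg (Nat.cast : ℕ → ℂ) (Nat.add_one_mul_choose_eq n j)
  have c2 := congrArg (Nat.cast : ℕ → ℂ) (Nat.add_one_mul_choose_eq (n + 1) (j + 1))
  push_cast at h1 c1 c2
  have n1 : ((n : ℂ) + 1) ≠ 0 := by exact_mod_cast Nat.succ_ne_zero n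
  have n2 : ((n : ℂ) + 2) ≠ 0 := by exact_mod_cast Nat.succ_ne_zero (n + 1)
  have q0 := qq_ne (N := n + 2) (k := j + 2) (by omega) (by omega)
  rw [cc, ← mul_div_assoc, div_mul_eq_mul_div, div_eq_div_iff q0 (mul_ne_zero n2 n1), qq,
    ← neg_neg ((Qb b).coeff j), ← h1]
  push_cast
  rw [show n + 2 = n + 1 + 1 from rfl, show j + 2 = j + 1 + 1 from rfl]
  linear_combination (hb b).coeff (j + 1 + 1) * w ^ (j + 2) * (((n : ℂ) + 2) * c1 + ((j : ℂ) + 1) * c2)

lemma two_eval {n : ℕ} (hn : Fintype.card κ = n + 1) (b : κ → ℝ) (w u : ℂ) :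
    mu (X ^ 2) (lf (cc (n + 2) (hb b) w)) ((1 + C u * X) ^ n)
      = w ^ 2 / ((n + 2) * (n + 1)) * (Qb b).eval (u * w) := by
  have d : ((1 + C u * X) ^ n).natDegree < n + 1 := by
    refine Nat.lt_succ_of_le (natDegree_pow_le.trans ?_)
    have : (1 + C u * X).natDegree ≤ 1 := by compute_degree
    nlinarith
  rw [pow_two X, ← mu_mu, lf_X, lf_X, lf_range _ _ _ d,
    eval_eq_sum_range' (n := n + 1) (Nat.lt_succ_of_le (Qb_deg hn b)), Finset.mul_sum]
  refine Finset.sum_congr rfl fun j hj => ?_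
  have := cc_two n b w j (Nat.lt_succ_iff.mp (Finset.mem_range.mp hj))
  rw [pow_coeff, mul_pow]
  linear_combination u ^ j * this

lemma Qb_ne (b : κ → ℝ) (b0 : ∀ i, 0 ≤ b i) (b1 : ∃ i, b i ≠ 0) (w : ℂ) (hw : 0 < w.im) (u : ℂ)
    (hu : u.im ≤ 0) : (Qb b).eval (u * w) ≠ 0 := by
  have w0 : w ≠ 0 := by rintro rfl; simp at hw
  have nw : 0 < Complex.normSq w := Complex.normSq_pos.mpr w0
  have f1 : ∀ i, ((1 + b i * (u * w)) / w).im < 0 := by
    intro i
    have : (1 + b i * (u * w)) / w = w⁻¹ + b i * u := by field_simp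
    rw [this, Complex.add_im, Complex.inv_im, Complex.im_ofReal_mul]
    have h1 : 0 < w.im / Complex.normSq w := div_pos hw nw
    have h2 : b i * u.im ≤ 0 := mul_nonpos_of_nonneg_of_nonpos (b0 i) hu
    rw [neg_div]; linarith
  have f2 : ∀ i, (1 + b i * (u * w)) ≠ 0 := fun i h => by
    have := f1 i
    rw [h] at this; simp at this
  have f3 : ∀ i, 0 < (w / (1 + b i * (u * w))).im := by
    intro i
    rw [← inv_div, Complex.inv_im]
    exact div_pos (by linarith [f1 i]) (Complex.normSq_pos.mpr (div_ne_zero (f2 i) w0))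
  have e : w * (Qb b).eval (u * w) = (∏ i, (1 + b i * (u * w))) *
      ∑ i, ((b i * (∑ l, b l + b i) : ℝ) : ℂ) * (w / (1 + b i * (u * w))) := by
    rw [Qb, eval_finsetSum, Finset.mul_sum, Finset.mul_sum]
    refine Finset.sum_congr rfl fun i _ => ?_
    rw [← Finset.mul_prod_erase _ _ (Finset.mem_univ i), eval_mul, eval_C, pr, eval_prod]
    simp only [eval_add, eval_one, eval_mul, eval_C, eval_X]
    have := f2 i
    generalize (1 + (b i : ℂ) * (u * w)) = A at this ⊢
    generalize (∏ x ∈ univ.erase i, (1 + (b x : ℂ) * (u * w))) = B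
    field_simp
  intro h
  rw [h, mul_zero] at e
  have e2 := (mul_eq_zero.mp e.symm).resolve_left (Finset.prod_ne_zero_iff.mpr fun i _ => f2 i)
  have e3 := congrArg Complex.im e2
  rw [Complex.im_sum, Complex.zero_im] at e3
  have a0 : 0 ≤ ∑ l, b l := Finset.sum_nonneg fun l _ => b0 l
  obtain ⟨i, hi⟩ := b1
  refine (Finset.sum_pos' (fun l _ => ?_) ⟨i, Finset.mem_univ i, ?_⟩).ne' e3
  · rw [Complex.im_ofReal_mul]
    exact mul_nonneg (mul_nonneg (b0 l) (add_nonneg a0 (b0 l))) (f3 l).le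
  · rw [Complex.im_ofReal_mul]
    have := lt_of_le_of_ne (b0 i) hi.symm
    exact mul_pos (mul_pos this (by linarith)) (f3 i)

lemma S0_two {n : ℕ} (hn : Fintype.card κ = n + 1) (b : κ → ℝ) (b0 : ∀ i, 0 ≤ b i)
    (b1 : ∃ i, b i ≠ 0) (w : ℂ) (hw : 0 < w.im) :
    S0 n (mu (X ^ 2) (lf (cc (n + 2) (hb b) w))) := by
  intro u hu
  have w0 : w ≠ 0 := by rintro rfl; simp at hw
  have n1 : ((n : ℂ) + 1) ≠ 0 := by exact_mod_cast Nat.succ_ne_zero n
  have n2 : ((n : ℂ) + 2) ≠ 0 := by exact_mod_cast Nat.succ_ne_zero (n + 1)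
  rw [two_eval hn]
  exact mul_ne_zero (div_ne_zero (pow_ne_zero _ w0) (mul_ne_zero n2 n1)) (Qb_ne b b0 b1 w hw u hu)

lemma S1_two {n : ℕ} (hn : Fintype.card κ = n + 1) (b : κ → ℝ) (b0 : ∀ i, 0 < b i)
    (w : ℂ) (hw : 0 < w.im) : S1 n (mu (X ^ 2) (lf (cc (n + 2) (hb b) w))) := by
  have w0 : w ≠ 0 := by rintro rfl; simp at hw
  have : Nonempty κ := Fintype.card_pos_iff.mp (by omega)
  refine ⟨?_, S0_two hn b (fun i => (b0 i).le) (by
    obtain ⟨i⟩ := this; exact ⟨i, (b0 i).ne'⟩) w hw⟩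
  rw [mu_apply, ← pow_add, X_pow_eq_monomial, lf_mono, one_mul, add_comm 2 n, cc]
  refine div_ne_zero (mul_ne_zero ?_ (pow_ne_zero _ w0)) (qq_ne le_rfl (by omega))
  have hc : (univ : Finset (Option κ)).card = n + 2 := by simp [hn]
  rw [hb, ← hc, pr_top, Complex.ofReal_ne_zero]
  refine Finset.prod_ne_zero_iff.mpr fun o _ => ?_
  cases o with
  | none => exact neg_ne_zero.mpr (Finset.sum_pos (fun i _ => b0 i) Finset.univ_nonempty).ne'
  | some i => exact (b0 i).ne'

lemma hb_deg {n : ℕ} (hn : Fintype.card κ = n + 1) (b : κ → ℝ) : (hb b).natDegree ≤ n + 2 := by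
  refine (pr_deg _ _).trans ?_
  simp [hn]

lemma lf_coeff (k : ℕ) (p : ℂ[X]) : lf (fun j => if j = k then 1 else 0) p = p.coeff k := by
  rw [lf_range _ _ (p.natDegree + k + 1) (by omega)]
  simp only [mul_ite, mul_one, mul_zero, Finset.sum_ite_eq', Finset.mem_range]
  rw [if_pos (by omega)]

theorem core {n : ℕ} (hι : Fintype.card ι = n + 2) (hκ : Fintype.card κ = n + 1) (b : κ → ℝ)
    (b0 : ∀ i, 0 ≤ b i) (w : ℂ) (hw : 0 < w.im) (x : ι → ℝ) (hx : ∑ i, x i = 0) :
    lf (cc (n + 2) (hb b) w) (pr univ x) ≠ 0 := by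
  have w0 : 0 < ‖w‖ := norm_pos_iff.mpr (by rintro rfl; simp at hw)
  let c : ℝ → ℕ → ℂ := fun t => cc (n + 2) (hb fun i => 1 - t + t * b i) w
  have hc : ∀ k, Continuous fun t => c t k := by
    intro k
    refine (Continuous.mul ?_ continuous_const).div_const _
    have := cont_pr (ι := Option κ) (Y := ℝ) (fun _ j => if j = k then 1 else 0)
      (fun _ => continuous_const)
    have h2 : Continuous fun t : ℝ => (t, yy fun i => 1 - t + t * b i) := by
      refine continuous_id.prodMk (continuous_pi fun o => ?_)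
      cases o with
      | none => simp only [yy, Option.elim]; fun_prop
      | some i => simp only [yy, Option.elim]; fun_prop
    refine (this.comp h2).congr fun t => ?_
    simp only [Function.comp_apply, lf_coeff]; rfl
  have hO : (univ : Finset (Option κ)).card = n + 2 := by simp [hκ]
  have pd : ∀ y : ι → ℝ, (pr univ y).natDegree ≤ n + 2 := fun y =>
    (pr_deg _ _).trans (by simp [hι])
  have M0 : 0 < (w.im / ‖w‖) ^ (n + 2) := by positivity
  have key : ∀ t ∈ Set.Ico (0:ℝ) 1, (w.im / ‖w‖) ^ (n + 2) ≤ ‖lf (c t) (pr univ x)‖ := by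
    intro t1 ht1
    refine homotopy hι t1 c hc (fun t ht => S1_two hκ _ (fun i => ?_) w hw) _ M0
      (fun t _ y hy hl => ?_) (fun y hy => ?_) t1 ⟨ht1.1, le_rfl⟩ x hx
    · have := mul_nonneg ht.1 (b0 i)
      linarith [ht.2, ht1.2]
    · obtain ⟨s, hs⟩ := line_form hι y hy hl
      rw [pairing _ _ _ w s (hb_deg hκ _) (pd y) (hb_one _) hs, hb, ← hO]
      exact pr_norm _ _ w hw s
    · obtain ⟨s, hs⟩ := line_form (ι := Option κ) (n := n) (by simp [hκ])
        (yy fun i => 1 - 0 + 0 * b i) (yy_sum _) ⟨none, fun j k hj hk => by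
          cases j with
          | none => exact absurd rfl hj
          | some j =>
            cases k with
            | none => exact absurd rfl hk
            | some k => simp [yy]⟩
      rw [cc_symm _ _ _ w (hb_deg hκ _) (pd y),
        pairing _ _ _ w s (pd y) (hb_deg hκ _) (by rw [pr_one, hy]; simp) hs, ← hι]
      exact pr_norm _ _ w hw s
  have cl : IsClosed {t : ℝ | (w.im / ‖w‖) ^ (n + 2) ≤ ‖lf (c t) (pr univ x)‖} :=
    isClosed_le continuous_const ((cont_pr c hc).comp (Continuous.prodMk_left x)).norm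
  have h1 : (1:ℝ) ∈ closure (Set.Ico (0:ℝ) 1) := by
    rw [closure_Ico zero_ne_one]; simp
  have h2 : (w.im / ‖w‖) ^ (n + 2) ≤ ‖lf (c 1) (pr univ x)‖ := cl.closure_subset_iff.mpr key h1
  have e : c 1 = cc (n + 2) (hb b) w := by simp [c]
  rw [e] at h2
  exact norm_pos_iff.mp (M0.trans_le h2)

end

end Pool.Agent.H.MP_0cd67c_ag
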