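import Mathlib
import Pool.Agent.H.MP_0cd67c_ag.D

set_option autoImplicit false
set_option linter.unusedSectionVars false

namespace Pool.Agent.H.MP_0cd67c_ag
open Polynomial Finset

noncomputable section

lemma PP_coeff (n : ℕ) (L : Fn) (j : ℕ) : (PP n L).coeff j = (n.choose j : ℂ) * L (X ^ j) := by
  induction n generalizing L j with
  | zero => cases j <;> simp [PP, coeff_C]
  | succ n ih =>
    cases j with
    | zero => simp [PP, ih]
    | succ j =>
      rw [PP, coeff_add, coeff_X_mul, ih, ih, mu_apply, ← pow_succ', Nat.choose_succ_succ']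
      push_cast; ring

lemma S0.der_pow {N : ℕ} (m : ℕ) {L : Fn} (h : S0 (N + m) L) :
    (∀ j ≤ N, L (X ^ (m + j)) = 0) ∨ S0 N (mu (X ^ m) L) := by
  induction m generalizing L with
  | zero => right; rwa [pow_zero, mu_one]
  | succ m ih =>
    rcases S0.der (N := N + m) h with h0 | h1
    · left
      intro j hj
      have := PP_coeff (N + m) (mu X L) (m + j)
      rw [h0, coeff_zero, mu_apply, ← pow_succ'] at this
      have h2 : (((N + m).choose (m + j) : ℕ) : ℂ) ≠ 0 := by
        exact_mod_cast (Nat.choose_pos (by omega)).ne'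
      rw [show m + 1 + j = m + j + 1 by ring]
      exact (mul_eq_zero.mp this.symm).resolve_left h2
    · rcases ih h1 with h2 | h2
      · left
        intro j hj
        have := h2 j hj
        rwa [mu_apply, ← pow_succ', show m + j + 1 = m + 1 + j by ring] at this
      · right
        rwa [mu_mu, ← pow_succ'] at h2

def PM (s : Multiset ℝ) : ℂ[X] := (s.map fun x : ℝ => 1 + C (x : ℂ) * X).prod

lemma exists_fn (s : Multiset ℝ) : ∃ x : Fin s.card → ℝ, Finset.univ.val.map x = s := by
  induction s using Quotient.inductionOn with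
  | h l => exact ⟨l.get, (Fin.univ_val_map l.get).trans (congrArg _ (List.ofFn_get l))⟩

lemma pr_PM {ι : Type} [Fintype ι] (x : ι → ℝ) : pr univ x = PM (Finset.univ.val.map x) := by
  rw [PM, Multiset.map_map]; rfl

lemma PM_deg (s : Multiset ℝ) : (PM s).natDegree ≤ s.card := by
  obtain ⟨x, hx⟩ := exists_fn s
  have := pr_deg univ x
  rwa [pr_PM, hx, Finset.card_univ, Fintype.card_fin] at this

lemma PM_comp (s : Multiset ℝ) (t : ℝ) :
    (PM s).comp (C (t : ℂ) * X) = PM (s.map fun x => x * t) := by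
  rw [PM, PM, multiset_prod_comp, Multiset.map_map, Multiset.map_map]
  refine congrArg _ (Multiset.map_congr rfl fun x _ => ?_)
  simp [mul_assoc]

lemma cc_comp (N : ℕ) (h p : ℂ[X]) (w s : ℂ) :
    lf (cc N h (s * w)) p = lf (cc N h w) (p.comp (C s * X)) := by
  have : (p.comp (C s * X)).natDegree < p.natDegree + 1 := by
    refine Nat.lt_succ_of_le (natDegree_comp_le.trans ?_)
    have : (C s * X).natDegree ≤ 1 := by compute_degree
    nlinarith
  rw [lf_range _ _ _ (Nat.lt_succ_self _), lf_range _ _ _ this]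
  refine Finset.sum_congr rfl fun k _ => ?_
  rw [comp_C_mul_X_coeff, cc, cc, mul_pow]; ring

variable {κ : Type} [Fintype κ] [DecidableEq κ]

lemma core1 {n : ℕ} (hκ : Fintype.card κ = n + 1) (b : κ → ℝ) (b0 : ∀ i, 0 ≤ b i) (w : ℂ)
    (hw : 0 < w.im) (r : ℕ) (s : Multiset ℝ) (hr : r + s.card = n + 2)
    (hs : (r = 0 ∧ s.sum = 0) ∨ 2 ≤ r) (h : lf (cc (n + 2) (hb b) w) (X ^ r * PM s) = 0) :
    ∀ k, r ≤ k → k ≤ n + 2 → (hb b).coeff k = 0 := by
  have w0 : w ≠ 0 := by rintro rfl; simp at hw
  rcases hs with ⟨rfl, hs⟩ | hs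
  · obtain ⟨x, hx⟩ := exists_fn s
    refine absurd h ?_
    rw [pow_zero, one_mul, ← hx, ← pr_PM]
    refine core (by simpa using hr) hκ b b0 w hw x ?_
    rw [← hx] at hs; exact hs
  by_cases b1 : ∃ i, b i ≠ 0
  · obtain ⟨m, rfl⟩ := Nat.exists_eq_add_of_le hs
    have h1 := S0_two hκ b b0 b1 w hw
    rw [show n = s.card + m by omega] at h1
    rcases S0.der_pow m h1 with h2 | h2
    · intro k hk1 hk2
      obtain ⟨j, rfl⟩ := Nat.exists_eq_add_of_le hk1
      have := h2 j (by omega)
      rw [mu_apply, ← pow_add, X_pow_eq_monomial, lf_mono, one_mul, cc, ← add_assoc,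
        div_eq_zero_iff, mul_eq_zero] at this
      rcases this with (h3 | h3) | h3
      · exact h3
      · exact absurd h3 (pow_ne_zero _ w0)
      · exact absurd h3 (qq_ne (by omega) (by omega))
    · have := S0.prod s (N := 0) (by rwa [zero_add]) 0 le_rfl
      rw [pow_zero, mu_apply, mul_one, mu_apply, mu_apply, ← mul_assoc, ← pow_add,
        show s.card + m = n by omega] at this
      exact absurd h this
  · push Not at b1
    intro k hk _
    have : hb b = 1 := by rw [hb_eq]; simp [b1, pr]
    rw [this, coeff_one, if_neg (by omega)]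

lemma core2 {n : ℕ} (hκ : Fintype.card κ = n + 1) (b : κ → ℝ) (b0 : ∀ i, 0 ≤ b i) (w : ℂ)
    (hw : w.im ≠ 0) (r : ℕ) (s : Multiset ℝ) (hr : r + s.card = n + 2)
    (hs : (r = 0 ∧ s.sum = 0) ∨ 2 ≤ r) (h : lf (cc (n + 2) (hb b) w) (X ^ r * PM s) = 0) :
    ∀ k, r ≤ k → k ≤ n + 2 → (hb b).coeff k = 0 := by
  rcases lt_or_gt_of_ne hw with h1 | h1
  · refine core1 hκ b b0 (-w) (by simpa using h1) r (s.map fun x => x * (-1)) (by simpa using hr)
      (hs.imp_left fun h => ⟨h.1, by rw [Multiset.sum_map_mul_right]; simp [h.2]⟩) ?_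
    rw [show w = ((-1 : ℝ) : ℂ) * (-w) by simp, cc_comp, mul_comp, PM_comp, pow_comp, X_comp,
      mul_pow, ← map_pow, mul_assoc, L_C] at h
    exact (mul_eq_zero.mp h).resolve_left (pow_ne_zero _ (by simp))
  · exact core1 hκ b b0 w h1 r s hr hs h

lemma refl_prod (s : Multiset ℝ) :
    reflect s.card (s.map fun x : ℝ => X - C (x : ℂ)).prod = PM (s.map fun x => x * (-1)) := by
  induction s using Multiset.induction_on with
  | empty => simp [PM]
  | cons a s ih =>
    have d : (s.map fun x : ℝ => X - C (x : ℂ)).prod.natDegree ≤ s.card := by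
      have := natDegree_multiset_prod_X_sub_C_eq_card (s.map fun x : ℝ => (x : ℂ))
      rw [Multiset.map_map, Multiset.card_map] at this
      exact this.le
    rw [Multiset.map_cons, Multiset.prod_cons, Multiset.card_cons, add_comm,
      reflect_mul _ _ (natDegree_X_sub_C _).le d, ih, reflect_sub, reflect_one_X, reflect_C]
    simp only [PM, Multiset.map_cons, Multiset.prod_cons]
    congr 1
    simp [sub_eq_add_neg]

lemma refl_split (f : ℝ[X]) (hf : f.Splits) (N : ℕ) (hN : f.natDegree ≤ N) (i : ℕ) (hi : i ≤ N) :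
    (f.coeff (N - i) : ℂ) = f.leadingCoeff *
      (X ^ (N - f.natDegree) * PM (f.roots.map fun x => x * (-1))).coeff i := by
  have d : (f.roots.map fun x : ℝ => X - C (x : ℂ)).prod.natDegree ≤ f.roots.card := by
    have := natDegree_multiset_prod_X_sub_C_eq_card (f.roots.map fun x : ℝ => (x : ℂ))
    rw [Multiset.map_map, Multiset.card_map] at this
    exact this.le
  have e : f.map Complex.ofRealHom
      = C (f.leadingCoeff : ℂ) * (f.roots.map fun x : ℝ => X - C (x : ℂ)).prod := by
    conv_lhs => rw [hf.eq_prod_roots]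
    rw [Polynomial.map_mul, Polynomial.map_multiset_prod, Multiset.map_map]
    simp
  have e2 := congrArg (fun p => (reflect N p).coeff i) e
  simp only [coeff_reflect, revAt_le hi, coeff_map] at e2
  have e3 := reflect_mul (C (f.leadingCoeff : ℂ)) _ (F := N - f.natDegree) (by simp) d
  rw [← hf.natDegree_eq_card_roots, Nat.sub_add_cancel hN, hf.natDegree_eq_card_roots, refl_prod,
    reflect_C, ← hf.natDegree_eq_card_roots, mul_assoc] at e3
  have e4 := congrArg (fun p => p.coeff i) e3
  simp only [coeff_reflect, revAt_le hi, coeff_C_mul] at e4 e2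
  rw [← e4, ← e2]; rfl

end

end Pool.Agent.H.MP_0cd67c_ag
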