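import Mathlib
import Pool.Agent.H.MP_0cd67c_ag.E

set_option autoImplicit false
set_option linter.unusedSectionVars false

namespace Pool.Agent.H.MP_0cd67c_ag
open Polynomial Finset

noncomputable section

lemma PM_cons (a : ℝ) (s : Multiset ℝ) : PM (a ::ₘ s) = (1 + C (a : ℂ) * X) * PM s := by
  simp [PM]

lemma PM_top (s : Multiset ℝ) : (PM s).coeff s.card = (s.prod : ℝ) := by
  obtain ⟨x, hx⟩ := exists_fn s
  have := pr_top univ x
  rw [pr_PM, Finset.card_univ, Fintype.card_fin, hx] at this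
  rw [this, Finset.prod_eq_multiset_prod, hx]

lemma strip (t : Multiset ℝ) : ∃ t' : Multiset ℝ, (∀ x ∈ t', x ∈ t ∧ x ≠ 0) ∧ PM t' = PM t ∧
    t'.sum = t.sum := by
  induction t using Multiset.induction_on with
  | empty => exact ⟨0, by simp, rfl, rfl⟩
  | cons a t ih =>
    obtain ⟨t', h1, h2, h3⟩ := ih
    by_cases ha : a = 0
    · exact ⟨t', fun x hx => ⟨Multiset.mem_cons_of_mem (h1 x hx).1, (h1 x hx).2⟩,
        by rw [PM_cons, ha, h2]; simp, by rw [Multiset.sum_cons, ha, h3, zero_add]⟩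
    · refine ⟨a ::ₘ t', fun x hx => ?_, by rw [PM_cons, PM_cons, h2],
        by rw [Multiset.sum_cons, Multiset.sum_cons, h3]⟩
      rcases Multiset.mem_cons.mp hx with rfl | hx
      · exact ⟨Multiset.mem_cons_self _ _, ha⟩
      · exact ⟨Multiset.mem_cons_of_mem (h1 x hx).1, (h1 x hx).2⟩

lemma struct (n : ℕ) (u : Multiset ℝ) (u0 : u ≠ 0) (us : u.sum = 0)
    (uc : u.card - 1 ≤ (u.filter fun x => 0 ≤ x).card)
    (ud : ∀ i, n + 2 < i → (PM u).coeff i = 0) :
    ∃ b : Fin (n + 1) → ℝ, (∀ i, 0 ≤ b i) ∧ hb b = PM u := by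
  obtain ⟨a, t, hu, ht⟩ : ∃ a t, u = a ::ₘ t ∧ ∀ x ∈ t, 0 ≤ x := by
    have e := Multiset.filter_add_not (fun x : ℝ => 0 ≤ x) u
    have ec := congrArg Multiset.card e
    rw [Multiset.card_add] at ec
    by_cases h : (u.filter fun x => ¬ 0 ≤ x).card = 1
    · obtain ⟨a, ha⟩ := Multiset.card_eq_one.mp h
      refine ⟨a, u.filter fun x => 0 ≤ x, ?_, fun x hx => (Multiset.mem_filter.mp hx).2⟩
      conv_lhs => rw [← e, ha, add_comm, Multiset.singleton_add]
    · have h0 : (u.filter fun x => ¬ 0 ≤ x) = 0 := Multiset.card_eq_zero.mp (by omega)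
      obtain ⟨a, ha⟩ := Multiset.exists_mem_of_ne_zero u0
      obtain ⟨t, rfl⟩ := Multiset.exists_cons_of_mem ha
      refine ⟨a, t, rfl, fun x hx => ?_⟩
      exact not_not.mp (Multiset.filter_eq_nil.mp h0 x (Multiset.mem_cons_of_mem hx))
  obtain ⟨t', h1, h2, h3⟩ := strip t
  have ha : a = -t'.sum := by
    rw [hu, Multiset.sum_cons] at us; rw [h3]; linarith
  have e : PM u = PM (a ::ₘ t') := by rw [hu, PM_cons, PM_cons, h2]
  have hc : t'.card ≤ n + 1 := by
    by_contra hh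
    have t0 : t' ≠ 0 := by rintro rfl; simp at hh
    have := ud (a ::ₘ t').card (by rw [Multiset.card_cons]; omega)
    rw [e, PM_top, Complex.ofReal_eq_zero, Multiset.prod_cons, mul_eq_zero] at this
    rcases this with h | h
    · have := MP_03af15_an.msum_pos t'
        (fun x hx => lt_of_le_of_ne (ht x (h1 x hx).1) (h1 x hx).2.symm) t0
      linarith
    · exact (h1 0 (Multiset.prod_eq_zero_iff.mp h)).2 rfl
  obtain ⟨s, hs⟩ : ∃ s, s = t' + Multiset.replicate (n + 1 - t'.card) (0:ℝ) := ⟨_, rfl⟩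
  have sc : s.card = n + 1 := by rw [hs]; simp; omega
  have hb' := exists_fn s
  rw [sc] at hb'
  obtain ⟨b, hb'⟩ := hb'
  refine ⟨b, fun i => ?_, ?_⟩
  · have : b i ∈ s := by rw [← hb']; exact Multiset.mem_map_of_mem b (Finset.mem_univ_val i)
    rw [hs, Multiset.mem_add] at this
    rcases this with h | h
    · exact ht _ (h1 _ h).1
    · exact (Multiset.eq_of_mem_replicate h).ge
  · have e1 : ∑ l, b l = t'.sum := by
      rw [Finset.sum_eq_multiset_sum, hb', hs]; simp
    rw [hb_eq, pr_PM, hb', e, PM_cons, ha, e1, hs]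
    simp [PM]

lemma sum_zero (f : ℝ[X]) (hf : f.Splits) (d : ℕ) (hd : 1 ≤ d) (h1 : f.natDegree = d)
    (h2 : f.coeff (d - 1) = 0) : f.roots.sum = 0 := by
  have := hf.nextCoeff_eq_neg_sum_roots_mul_leadingCoeff
  rw [nextCoeff_of_natDegree_pos (by omega), h1, h2] at this
  have f0 : f.leadingCoeff ≠ 0 := leadingCoeff_ne_zero.mpr (by rintro rfl; simp at h1; omega)
  rcases mul_eq_zero.mp this.symm with h | h
  · exact absurd (neg_eq_zero.mp h) f0
  · exact h

lemma g0_coeff (m i : ℕ) (hi : i ≤ m + 1) :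
    ((((X - 1) ^ m * (X + C (m : ℝ)) : ℝ[X]).coeff (m + 1 - i) : ℝ) : ℂ)
      = qq (m + 1) i * (-1) ^ i := by
  have d1 : ((X - 1 : ℂ[X]) ^ m).natDegree ≤ m := by
    compute_degree!
  have e : reflect m ((X - 1 : ℂ[X]) ^ m) = (1 + C (-1 : ℂ) * X) ^ m := by
    have := refl_prod (Multiset.replicate m 1)
    simpa [PM] using this
  have e2 := reflect_mul _ (X + C (m : ℂ)) d1 (natDegree_X_add_C _).le
  rw [e, reflect_add, reflect_one_X, reflect_C] at e2
  have e3 := congrArg (fun p => p.coeff i) e2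
  simp only [coeff_reflect, revAt_le hi] at e3
  rw [← q_coeff, mul_comm (1 + C _ * X), show -((m : ℂ) * -1) = m by ring, ← pow_one X, pow_one X]
  rw [pow_one] at e3
  rw [← e3]
  have : ((X - 1 : ℂ[X]) ^ m * (X + C (m : ℂ)))
      = ((X - 1) ^ m * (X + C (m : ℝ)) : ℝ[X]).map Complex.ofRealHom := by simp
  rw [this, coeff_map]; rfl

theorem main (n d : ℕ) (hn : 1 ≤ n) (hd : 2 ≤ d) (γ : ℕ → ℝ) (T : ℝ[X] →ₗ[ℝ] ℝ[X])
    (h1 : ∀ i, i ≤ n → i ≤ d → i ≠ 1 → T (X ^ (n - i)) = C (γ i) * X ^ (d - i))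
    (h2 : ∀ i, i ≤ n → d < i → T (X ^ (n - i)) = 0)
    (h : ℝ[X]) (hh : h = T ((X - 1) ^ (n - 1) * (X + C ((n : ℝ) - 1)))) (hs : h.Splits)
    (hsg : d - 1 ≤ (h.roots.filter fun x => 0 ≤ x).card ∨
      d - 1 ≤ (h.roots.filter fun x => x ≤ 0).card)
    (g : ℝ[X]) (hg : g.natDegree ≤ n) (hg1 : g.coeff (n - 1) = 0) (hgs : g.Splits) :
    (T g).natDegree ≤ d ∧ (T g).coeff (d - 1) = 0 ∧ (T g).Splits := by
  obtain ⟨δ, hδ⟩ : ∃ δ : ℕ → ℝ, δ = fun i => if i ≤ d then γ i else 0 := ⟨_, rfl⟩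
  have δ0 : ∀ i, d < i → δ i = 0 := fun i hi => by simp [hδ, not_le.mpr hi]
  have TF : ∀ g : ℝ[X], g.natDegree ≤ n → g.coeff (n - 1) = 0 →
      T g = ∑ i ∈ range (n + 1), C (δ i * g.coeff (n - i)) * X ^ (d - i) := by
    intro g hg hg1
    conv_lhs => rw [g.as_sum_range' (n + 1) (by omega), ← Finset.sum_flip, map_sum]
    refine Finset.sum_congr rfl fun i hi => ?_
    have hi' : i ≤ n := Nat.lt_succ_iff.mp (Finset.mem_range.mp hi)
    rw [← C_mul_X_pow_eq_monomial, ← smul_eq_C_mul, map_smul, smul_eq_C_mul]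
    by_cases e1 : i = 1
    · rw [e1, hg1]; simp
    by_cases e2 : i ≤ d
    · rw [h1 i hi' e2 e1, hδ]; simp only [e2, if_true, map_mul]; ring
    · rw [h2 i hi' (not_le.mp e2), δ0 i (not_le.mp e2)]; simp
  have TD : ∀ g : ℝ[X], g.natDegree ≤ n → g.coeff (n - 1) = 0 → (T g).natDegree ≤ d := by
    intro g hg hg1
    rw [TF g hg hg1]
    exact natDegree_sum_le_of_forall_le _ _ fun i _ =>
      (natDegree_C_mul_X_pow_le _ _).trans (Nat.sub_le _ _)
  have TC : ∀ g : ℝ[X], g.natDegree ≤ n → g.coeff (n - 1) = 0 → ∀ i, i ≤ d →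
      (T g).coeff (d - i) = if i ≤ n then δ i * g.coeff (n - i) else 0 := by
    intro g hg hg1 i hi
    rw [TF g hg hg1, finsetSum_coeff]
    have : ∀ j ∈ range (n + 1), (C (δ j * g.coeff (n - j)) * X ^ (d - j)).coeff (d - i)
        = if j = i then δ i * g.coeff (n - i) else 0 := by
      intro j _
      rw [coeff_C_mul_X_pow]
      by_cases e : j = i
      · simp [e]
      · rw [if_neg e]
        by_cases e2 : j ≤ d
        · rw [if_neg (by omega)]
        · rw [δ0 j (not_le.mp e2)]; simp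
    rw [Finset.sum_congr rfl this, Finset.sum_ite_eq']
    simp only [Finset.mem_range, Nat.lt_succ_iff]
  refine ⟨TD g hg hg1, by rw [TC g hg hg1 1 (by omega), if_pos hn, hg1, mul_zero], ?_⟩
  by_cases n1 : n = 1
  · rw [TF g hg hg1]
    subst n1
    rw [Finset.sum_range_succ, Finset.sum_range_one, hg1, mul_zero, map_zero, zero_mul, add_zero]
    exact Splits.C_mul_X_pow _ _
  obtain ⟨m, rfl⟩ : ∃ m, n = m + 2 := ⟨n - 2, by omega⟩
  obtain ⟨g0, hg0⟩ : ∃ g0 : ℝ[X], g0 = (X - 1) ^ (m + 1) * (X + C ((m + 1 : ℕ) : ℝ)) := ⟨_, rfl⟩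
  have hh' : h = T g0 := by
    rw [hh, hg0]; congr 3
    congr 1; push_cast; ring
  have gc : ∀ i, i ≤ m + 2 → (g0.coeff (m + 2 - i) : ℂ) = qq (m + 2) i * (-1) ^ i :=
    fun i hi => by rw [hg0]; exact g0_coeff (m + 1) i hi
  have g0d : g0.natDegree ≤ m + 2 := by rw [hg0]; compute_degree!
  have g01 : g0.coeff (m + 2 - 1) = 0 := by
    have := gc 1 (by omega)
    simpa [qq] using this
  have hd1 : h.natDegree ≤ d := hh' ▸ TD g0 g0d g01
  have hc := TC g0 g0d g01
  rw [← hh'] at hc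
  have hc1 : h.coeff (d - 1) = 0 := by rw [hc 1 (by omega), if_pos hn, g01, mul_zero]
  have hcard : d - 1 ≤ h.natDegree := by
    rw [hs.natDegree_eq_card_roots]
    rcases hsg with h' | h' <;> exact h'.trans (Multiset.card_le_card (Multiset.filter_le _ _))
  have h0 : h ≠ 0 := by rintro rfl; simp at hcard; omega
  have hdeg : h.natDegree = d := by
    by_contra hne
    have : h.natDegree = d - 1 := by omega
    exact leadingCoeff_ne_zero.mpr h0 (by rw [leadingCoeff, this, hc1])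
  have hl : (h.leadingCoeff : ℂ) ≠ 0 := by exact_mod_cast leadingCoeff_ne_zero.mpr h0
  obtain ⟨σ, hσ, hf⟩ : ∃ σ : ℝ, σ * σ = 1 ∧
      d - 1 ≤ ((h.roots.map fun x => x * σ).filter fun x => 0 ≤ x).card := by
    rcases hsg with h' | h'
    · exact ⟨1, by ring, by simpa using h'⟩
    · refine ⟨-1, by ring, ?_⟩
      rw [Multiset.filter_map, Multiset.card_map]
      simpa using h'
  have σ0 : (σ : ℂ) ≠ 0 := by
    intro e; rw [Complex.ofReal_eq_zero] at e; rw [e] at hσ; simp at hσ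
  obtain ⟨u, hu⟩ : ∃ u, u = h.roots.map fun x => x * σ := ⟨_, rfl⟩
  have uc : u.card = d := by rw [hu, Multiset.card_map, ← hs.natDegree_eq_card_roots, hdeg]
  have ucoef : ∀ i, i ≤ d → (h.coeff (d - i) : ℂ)
      = h.leadingCoeff * ((PM u).coeff i * (-σ) ^ i) := by
    intro i hi
    rw [refl_split h hs d hd1 i hi, hdeg, Nat.sub_self, pow_zero, one_mul, ← Complex.ofReal_neg,
      ← comp_C_mul_X_coeff, PM_comp, hu, Multiset.map_map]
    congr 3
    refine Multiset.map_congr rfl fun x _ => ?_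
    simp only [Function.comp_apply]
    linear_combination x * hσ
  have uz : ∀ i, d < i → (PM u).coeff i = 0 := fun i hi =>
    coeff_eq_zero_of_natDegree_lt ((PM_deg u).trans_lt (by omega))
  obtain ⟨b, b0, hb'⟩ := struct m u (by rintro rfl; simp at uc; omega)
    (by rw [hu, Multiset.sum_map_mul_right]; simp [sum_zero h hs d (by omega) hdeg hc1])
    (by rw [uc, hu]; exact hf) (fun i hi => by
      by_cases e : i ≤ d
      · have := ucoef i e
        rw [hc i e, if_neg (by omega), Complex.ofReal_zero] at this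
        exact (mul_eq_zero.mp ((mul_eq_zero.mp this.symm).resolve_left hl)).resolve_right
          (pow_ne_zero _ (neg_ne_zero.mpr σ0))
      · exact uz i (not_le.mp e))
  have rel : ∀ i, i ≤ m + 2 → i ≠ 1 →
      (δ i : ℂ) = h.leadingCoeff * ((hb b).coeff i * σ ^ i / qq (m + 2) i) := by
    intro i hi hi1
    have q0 := qq_ne hi hi1
    rw [hb']
    by_cases e : i ≤ d
    · have := ucoef i e
      rw [hc i e, if_pos hi, Complex.ofReal_mul, gc i hi, neg_pow (σ : ℂ)] at this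
      have p0 : ((-1 : ℂ)) ^ i ≠ 0 := pow_ne_zero _ (by norm_num)
      field_simp
      apply mul_right_cancel₀ p0
      linear_combination this
    · rw [δ0 i (not_le.mp e), uz i (not_le.mp e)]; simp
  by_cases gz : g = 0
  · rw [gz, map_zero]; exact Splits.zero
  refine Splits.of_splits_map Complex.ofRealHom (IsAlgClosed.splits _) fun z hz => ?_
  by_contra hzr
  have zi : z.im ≠ 0 := fun e => hzr ⟨z.re, Complex.ext rfl (by simpa using e.symm)⟩
  have z0 : z ≠ 0 := by rintro rfl; simp at zi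
  obtain ⟨Tz, hz⟩ := mem_roots'.mp hz
  apply Tz
  obtain ⟨r, hr⟩ : ∃ r, r = m + 2 - g.natDegree := ⟨_, rfl⟩
  obtain ⟨s, hs'⟩ : ∃ s, s = g.roots.map fun x => x * (-1) := ⟨_, rfl⟩
  have gco := refl_split g hgs (m + 2) hg
  rw [← hr, ← hs'] at gco
  have sc : s.card = g.natDegree := by rw [hs', Multiset.card_map, ← hgs.natDegree_eq_card_roots]
  have gl : (g.leadingCoeff : ℂ) ≠ 0 := by exact_mod_cast leadingCoeff_ne_zero.mpr gz
  have Gd : (X ^ r * PM s).natDegree < m + 2 + 1 := by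
    refine Nat.lt_succ_of_le (natDegree_mul_le.trans ?_)
    have := PM_deg s
    rw [natDegree_X_pow]; omega
  have ev : z ^ d * (h.leadingCoeff * g.leadingCoeff *
      lf (cc (m + 2) (hb b) (σ * z⁻¹)) (X ^ r * PM s)) = 0 := by
    rw [← hz.eq_zero, TF g hg hg1, lf_range _ _ _ Gd, Polynomial.map_sum, eval_finsetSum,
      Finset.mul_sum, Finset.mul_sum]
    refine Finset.sum_congr rfl fun i hi => ?_
    have hi' : i ≤ m + 2 := Nat.lt_succ_iff.mp (Finset.mem_range.mp hi)
    simp only [Polynomial.map_mul, map_C, Polynomial.map_pow, map_X, eval_mul, eval_C, eval_pow,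
      eval_X, Complex.ofRealHom_eq_coe, Complex.ofReal_mul]
    by_cases e1 : i = 1
    · rw [e1, hg1, cc, hb_one]; simp
    by_cases e : i ≤ d
    · rw [gco i hi', rel i hi' e1, cc, pow_sub₀ z z0 e, mul_pow, inv_pow]; ring
    · rw [δ0 i (not_le.mp e), cc, hb', uz i (not_le.mp e)]; simp
  have ev2 := (mul_eq_zero.mp ((mul_eq_zero.mp ev).resolve_left (pow_ne_zero _ z0))).resolve_left
    (mul_ne_zero hl gl)
  have zc := core2 (n := m) (by simp) b b0 (σ * z⁻¹) (by
      rw [Complex.im_ofReal_mul, Complex.inv_im]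
      refine mul_ne_zero (by exact_mod_cast σ0) (div_ne_zero (neg_ne_zero.mpr zi) ?_)
      exact (Complex.normSq_pos.mpr z0).ne') r s (by omega) (by
      by_cases e : g.natDegree = m + 2
      · left
        refine ⟨by omega, ?_⟩
        rw [hs', Multiset.sum_map_mul_right]
        simp [sum_zero g hgs (m + 2) (by omega) e hg1]
      · right
        by_contra hh
        have : g.natDegree = m + 2 - 1 := by omega
        exact leadingCoeff_ne_zero.mpr gz (by rw [leadingCoeff, this, hg1])) ev2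
  rw [TF g hg hg1, Finset.sum_eq_zero, Polynomial.map_zero]
  intro i hi
  have hi' : i ≤ m + 2 := Nat.lt_succ_iff.mp (Finset.mem_range.mp hi)
  by_cases e1 : i = 1
  · rw [e1, hg1]; simp
  by_cases e : r ≤ i
  · have := rel i hi' e1
    rw [zc i e hi'] at this
    have : δ i = 0 := by simpa using this
    rw [this]; simp
  · rw [coeff_eq_zero_of_natDegree_lt (by omega : g.natDegree < m + 2 - i)]; simp

end

end Pool.Agent.H.MP_0cd67c_ag
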